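import Pool.Agent.Helper31.TW.St3

set_option autoImplicit false

/-!
Project TW, module TRN.
-/

namespace Pool.Agent.Helper7.TW

open Pool.Agent.Helper31.TW Pool.Agent.Helper22.FL Pool.Agent.Helper22.CS Pool.Agent.Helper15.TS

section

variable {m n : ℕ} {e : Fin m → Fin n}

theorem emb_iff (he : Function.Injective e) (a x : Fin n → ℕ) (t : Fin m → ℕ) :
    Emb e a x t ↔ x = Function.extend e t a := by
  constructor
  · rintro ⟨h1, h2⟩
    funext i
    by_cases hi : ∃ j, e j = i
    · obtain ⟨j, rfl⟩ := hi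
      rw [he.extend_apply, h1]
    · rw [Function.extend_apply' _ _ _ hi]
      exact h2 i hi
  · rintro rfl
    exact ⟨fun j => he.extend_apply _ _ _, fun i hi => Function.extend_apply' _ _ _ hi⟩

theorem ext_add (he : Function.Injective e) (a : Fin n → ℕ) (c : Fin m → ℕ) (q : Fin 3 → Fin m → ℕ)
    (k : Fin 3 → ℕ) :
    Function.extend e (c + ∑ j, k j • q j) a =
      Function.extend e c a + ∑ j, k j • Function.extend e (q j) (0 : Fin n → ℕ) := by
  funext i
  rw [Pi.add_apply, Finset.sum_apply]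
  by_cases hi : ∃ j, e j = i
  · obtain ⟨l, rfl⟩ := hi
    rw [he.extend_apply, he.extend_apply, Pi.add_apply, Finset.sum_apply]
    congr 1
    refine Finset.sum_congr rfl fun j _ => ?_
    rw [Pi.smul_apply, Pi.smul_apply, he.extend_apply]
  · rw [Function.extend_apply' _ _ _ hi, Function.extend_apply' _ _ _ hi, Finset.sum_eq_zero]
    · rfl
    · intro j _
      rw [Pi.smul_apply, Function.extend_apply' _ _ _ hi]
      simp

theorem str_ext (he : Function.Injective e) (a : Fin n → ℕ) {T : Set (Fin n → ℕ)} (hT : Str T) :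
    Str {t : Fin m → ℕ | Function.extend e t a ∈ T} := by
  intro c q hq
  obtain ⟨R, hR1, hR2⟩ := hT (Function.extend e c a) (fun j => Function.extend e (q j) 0) (by
    intro j h
    apply hq j
    funext l
    have := congrFun h (e l)
    rw [he.extend_apply] at this
    exact this)
  refine ⟨R, hR1, fun k => ?_⟩
  rw [← hR2 k]
  change Function.extend e (c + ∑ j, k j • q j) a ∈ T ↔ _
  rw [ext_add he]

theorem frm_ext (he : Function.Injective e) (α : Fin m → ℤ) (x : Fin n → ℕ) :
    frm (Function.extend e α (0 : Fin n → ℤ)) x = frm α (x ∘ e) := by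
  unfold frm
  symm
  refine Fintype.sum_of_injective e he _ _ ?_ ?_
  · intro i hi
    rw [Function.extend_apply' _ _ _ hi]
    simp
  · intro j
    rw [he.extend_apply]
    rfl

end

theorem hTRN (hCOR : StCOR) (hSLS : StSLS) : StTRN := by
  classical
  intro n S hS hs hc I a
  obtain ⟨m, e, he, hI⟩ : ∃ (m : ℕ) (e : Fin m → Fin n), Function.Injective e ∧
      ∀ i, i ∈ I ↔ ∃ j, e j = i := by
    refine ⟨I.card, I.orderEmbOfFin rfl, (I.orderEmbOfFin rfl).injective, fun i => ?_⟩
    have h := Finset.range_orderEmbOfFin I rfl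
    rw [← Finset.mem_coe, ← h]
    rfl
  have hmem : {t : Fin m → ℕ | ∃ x ∈ S, Emb e a x t} =
      {t : Fin m → ℕ | Function.extend e t a ∈ S} := by
    ext t
    constructor
    · rintro ⟨x, hx, h⟩
      rw [emb_iff he] at h
      subst h
      exact hx
    · intro h
      exact ⟨_, h, (emb_iff he _ _ _).2 rfl⟩
  have hsl := hSLS m n e a S he hS
  rw [hmem] at hsl
  have hs2 : Str ({t : Fin m → ℕ | Function.extend e t a ∈ S}ᶜ) := str_ext he a hc
  obtain ⟨D, hD, h⟩ := hCOR m _ hsl (str_ext he a hs) hs2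
  refine ⟨D, hD, fun ρ => ?_⟩
  obtain ⟨K, E', h1, h2⟩ := h (ρ ∘ e)
  refine ⟨K, E'.image (fun α => Function.extend e α (0 : Fin n → ℤ)), ?_, ?_, ?_⟩
  · intro α' hα' β' hβ' hne hcr
    obtain ⟨α, hα, rfl⟩ := Finset.mem_image.1 hα'
    obtain ⟨β, hβ, rfl⟩ := Finset.mem_image.1 hβ'
    have hne' : α ≠ β := fun h => hne (by rw [h])
    obtain ⟨y, hy, ha, hb⟩ := hcr
    rw [frm_ext he] at ha hb
    refine h1 α hα β hβ hne' ⟨fun j => (y (e j) : ℤ), fun j => ?_, ha, hb⟩
    have := (hy (e j)).1 ((hI _).2 ⟨j, rfl⟩)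
    change (0 : ℤ) < (y (e j) : ℤ)
    exact_mod_cast this
  · intro α' hα' i hi
    obtain ⟨α, hα, rfl⟩ := Finset.mem_image.1 hα'
    change Function.extend e α (0 : Fin n → ℤ) i = 0
    rw [Function.extend_apply' _ _ _ (fun hx => hi ((hI i).2 hx))]
    rfl
  · intro x x' ho hm hcl
    have hx : ∀ x : Fin n → ℕ, (∀ i, i ∉ I → x i = a i) → Function.extend e (x ∘ e) a = x := by
      intro x hx
      funext i
      by_cases hi : ∃ j, e j = i
      · obtain ⟨j, rfl⟩ := hi
        rw [he.extend_apply]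
        rfl
      · rw [Function.extend_apply' _ _ _ hi]
        exact (hx i (fun h => hi ((hI i).1 h))).symm
    have h3 := h2 (x ∘ e) (x' ∘ e) (fun j => hm (e j) ((hI _).2 ⟨j, rfl⟩)) (by
      intro α hα
      have := hcl _ (Finset.mem_image_of_mem _ hα)
      rw [frm_ext he, frm_ext he] at this
      exact this)
    change Function.extend e (x ∘ e) a ∈ S ↔ Function.extend e (x' ∘ e) a ∈ S at h3
    rw [hx x (fun i hi => (ho i hi).1), hx x' (fun i hi => (ho i hi).2)] at h3
    exact h3

end Pool.Agent.Helper7.TW
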