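import Pool.Agent.Helper54.PT.Defs

/-! MP_1d384c_nt, module B14 (main_term). -/

set_option autoImplicit false
set_option linter.unusedSectionVars false

namespace Pool.Agent.Helper7.TWB14

open Finset Filter Topology Pool.Agent.Helper54.PT

variable {ℓ : ℕ} [Fact ℓ.Prime]

theorem norm_ee (x : ZMod ℓ) : ‖ee x‖ = 1 := AddChar.norm_apply _ _

theorem ee_add (x y : ZMod ℓ) : ee (x + y) = ee x * ee y := AddChar.map_add_eq_mul _ _ _

theorem ee_sum {α : Type} (s : Finset α) (f : α → ZMod ℓ) :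
    ee (∑ i ∈ s, f i) = ∏ i ∈ s, ee (f i) := by
  classical
  induction s using Finset.induction_on with
  | empty => simp [ee]
  | insert a s ha ih => rw [sum_insert ha, prod_insert ha, ee_add, ih]

theorem sum_ee_mul (c : ZMod ℓ) : ∑ t : ZMod ℓ, ee (t * c) = if c = 0 then (ℓ : ℂ) else 0 := by
  have := AddChar.sum_mulShift c (ZMod.isPrimitive_stdAddChar ℓ)
  simpa [ee, ZMod.card] using this

theorem sum_ee_dot {I : Type} [Fintype I] [DecidableEq I] (c : I → ZMod ℓ) :
    ∑ x : I → ZMod ℓ, ee (∑ i, x i * c i) = if c = 0 then (ℓ : ℂ) ^ Fintype.card I else 0 := by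
  simp only [ee_sum]
  have h := (Finset.prod_univ_sum (fun _ : I => (univ : Finset (ZMod ℓ)))
    (fun i t => ee (t * c i))).symm
  rw [Fintype.piFinset_univ] at h
  rw [h]
  simp only [sum_ee_mul]
  split_ifs with hc
  · subst hc
    simp
  · obtain ⟨i, hi⟩ := Function.ne_iff.1 hc
    exact prod_eq_zero (mem_univ i) (if_neg hi)

theorem sum_ee_dot2 {S I : Type} [Fintype S] [DecidableEq S] [Fintype I] [DecidableEq I]
    (c : S → I → ZMod ℓ) : ∑ x : S → I → ZMod ℓ, ee (∑ s, ∑ i, x s i * c s i) =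
      if c = 0 then (ℓ : ℂ) ^ (Fintype.card I * Fintype.card S) else 0 := by
  simp only [ee_sum univ (fun s => ∑ i, _ * _)]
  have h := (Finset.prod_univ_sum (fun _ : S => (univ : Finset (I → ZMod ℓ)))
    (fun s x => ee (∑ i, x i * c s i))).symm
  rw [Fintype.piFinset_univ] at h
  rw [h]
  simp only [sum_ee_dot]
  split_ifs with hc
  · subst hc
    simp [pow_mul]
  · obtain ⟨i, hi⟩ := Function.ne_iff.1 hc
    exact prod_eq_zero (mem_univ i) (if_neg hi)

variable {σ : Type} [Fintype σ] [DecidableEq σ]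

/-- A function on `Option σ` from its values. -/
def ext (t : ZMod ℓ) (m : σ → ZMod ℓ) : Option σ → ZMod ℓ := fun s => s.elim t m

theorem sumOpt (F : (Option σ → ZMod ℓ) → ℂ) :
    ∑ μ : Option σ → ZMod ℓ, F μ = ∑ t, ∑ m : σ → ZMod ℓ, F (ext t m) := by
  rw [← Fintype.sum_prod_type' (f := fun t m => F (ext t m))]
  refine Fintype.sum_equiv (Equiv.piOptionEquivProd (β := fun _ : Option σ => ZMod ℓ)) _ _
    fun μ => ?_
  congr 1
  funext s
  cases s <;> rfl

theorem sumOptR (F : (Option σ → ZMod ℓ) → ℝ) :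
    ∑ μ : Option σ → ZMod ℓ, F μ = ∑ t, ∑ m : σ → ZMod ℓ, F (ext t m) := by
  rw [← Fintype.sum_prod_type' (f := fun t m => F (ext t m))]
  refine Fintype.sum_equiv (Equiv.piOptionEquivProd (β := fun _ : Option σ => ZMod ℓ)) _ _
    fun μ => ?_
  congr 1
  funext s
  cases s <;> rfl

theorem sum_none (c : ℝ) (n : ℕ) :
    ∑ κ : Option σ → ZMod ℓ, (if κ none = (n : ZMod ℓ) then c else 0) =
      (ℓ : ℝ) ^ Fintype.card σ * c := by
  rw [sumOptR]
  have h1 : ∀ (t : ZMod ℓ), ∑ m : σ → ZMod ℓ, (if ext t m none = (n : ZMod ℓ) then c else 0) =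
      (ℓ : ℝ) ^ Fintype.card σ * (if t = (n : ZMod ℓ) then c else 0) := by
    intro t
    have h2 : ∀ m : σ → ZMod ℓ, (if ext t m none = (n : ZMod ℓ) then c else 0) =
        if t = (n : ZMod ℓ) then c else 0 := fun m => rfl
    simp only [h2, sum_const, card_univ, Fintype.card_fun, ZMod.card, nsmul_eq_mul, Nat.cast_pow]
  simp only [h1]
  rw [← mul_sum, sum_ite_eq' univ (n : ZMod ℓ) (fun _ => c)]
  simp

variable {J : Type} [Fintype J] [DecidableEq J]

theorem mt_eq {U : Type} (θ : U → Option σ → ZMod ℓ) (𝒰 : Finset U) (n : ℕ) (u₀ : U)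
    (hu₀ : u₀ ∈ 𝒰) (P : Prop) [Decidable P]
    (hP : P ↔ ∀ u ∈ 𝒰, (∀ r, θ u (some r) = 0) ∧ θ u none = θ u₀ none) :
    Pool.Agent.Helper54.PT.mt θ 𝒰 n = if P then ee (θ u₀ none * (n : ZMod ℓ)) else 0 := by
  unfold Pool.Agent.Helper54.PT.mt
  by_cases h : ∃ γ, ∀ u ∈ 𝒰, (∀ r, θ u (some r) = 0) ∧ θ u none = γ
  · rw [dif_pos h]
    have h1 := h.choose_spec
    have h2 : θ u₀ none = h.choose := (h1 u₀ hu₀).2
    rw [if_pos (hP.2 fun u hu => ⟨(h1 u hu).1, (h1 u hu).2.trans h2.symm⟩), h2]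
  · rw [dif_neg h, if_neg]
    exact fun hp => h ⟨_, hP.1 hp⟩

/-- The exponent. -/
def Lx (η y : Option σ → J → ZMod ℓ) (μ κ : Option σ → ZMod ℓ) : ZMod ℓ :=
  -(∑ s, ∑ j, η s j * y s j + ∑ s, μ s * κ s)

/-- The denominator. -/
def NN (ℓ : ℕ) (σ J : Type) [Fintype σ] [Fintype J] : ℂ :=
  (ℓ : ℂ) ^ ((Fintype.card J + 1) * (Fintype.card σ + 1))

theorem hatH_eq (H : (Option σ → J → ZMod ℓ) → (Option σ → J → ZMod ℓ) →
    (Option σ → ZMod ℓ) → Prop) (b η : Option σ → J → ZMod ℓ) (μ : Option σ → ZMod ℓ) :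
    hatH H b η μ = (∑ x : (Option σ → J → ZMod ℓ) × (Option σ → ZMod ℓ),
      (open Classical in if H b x.1 x.2 then ee (Lx η x.1 μ x.2) else 0)) / NN ℓ σ J := by
  rw [Fintype.sum_prod_type]
  rfl

theorem norm_NN : ‖NN ℓ σ J‖ = (ℓ : ℝ) ^ ((Fintype.card J + 1) * (Fintype.card σ + 1)) := by
  rw [NN, norm_pow, Complex.norm_natCast]

theorem final_div {x : ℝ} (hx : x ≤ (ℓ : ℝ) ^ ((Fintype.card J + 1) * (Fintype.card σ + 1))) :
    x / ‖NN ℓ σ J‖ ≤ 1 := by
  have hl : 0 < ℓ := (Fact.out : ℓ.Prime).pos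
  rw [norm_NN, div_le_one (by positivity)]
  exact hx

theorem case_one (τ : (J → ZMod ℓ) →+ (J → Option σ → ZMod ℓ))
    (H : (Option σ → J → ZMod ℓ) → (Option σ → J → ZMod ℓ) → (Option σ → ZMod ℓ) → Prop)
    (v₀ : J → ZMod ℓ) (𝒰 : Finset ((J → ZMod ℓ) × (J → ZMod ℓ)))
    (h𝒰 : ∀ u, u ∈ 𝒰 ↔ u.1 = v₀) (n : ℕ) :
    ‖∑ b : Option σ → J → ZMod ℓ, ∑ η : Option σ → J → ZMod ℓ, ∑ μ : Option σ → ZMod ℓ,
      hatH H b η μ * Pool.Agent.Helper54.PT.mt (thet τ b η μ) 𝒰 n‖ ≤ 1 := by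
  classical
  set b₀ : Option σ → J → ZMod ℓ := fun s j => τ v₀ j s with hb₀
  set m₀ : (Option σ → J → ZMod ℓ) → σ → ZMod ℓ := fun η r => -∑ j, η (some r) j * v₀ j with hm₀
  have hmem : ((v₀, 0) : (J → ZMod ℓ) × (J → ZMod ℓ)) ∈ 𝒰 := (h𝒰 _).2 rfl
  have hth : ∀ (b η : Option σ → J → ZMod ℓ) (μ : Option σ → ZMod ℓ) (w : J → ZMod ℓ) (s : Option σ),
      thet τ b η μ (v₀, w) s = ∑ j, w j * (b s j - b₀ s j) + (∑ j, η s j * v₀ j + μ s) := by
    intro b η μ w s
    simp only [thet, sum_add_distrib, hb₀]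
    ring
  have hmt : ∀ (b η : Option σ → J → ZMod ℓ) (μ : Option σ → ZMod ℓ),
      Pool.Agent.Helper54.PT.mt (thet τ b η μ) 𝒰 n = if b = b₀ ∧ ∀ r, μ (some r) = m₀ η r then
        ee ((∑ j, η none j * v₀ j + μ none) * (n : ZMod ℓ)) else 0 := by
    intro b η μ
    rw [mt_eq (thet τ b η μ) 𝒰 n (v₀, 0) hmem (b = b₀ ∧ ∀ r, μ (some r) = m₀ η r)]
    · rw [hth]
      simp
    · constructor
      · rintro ⟨rfl, h2⟩ u hu
        obtain ⟨v, w⟩ := u
        obtain rfl : v = v₀ := (h𝒰 _).1 hu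
        rw [hth, hth]
        refine ⟨fun r => ?_, by simp⟩
        rw [hth, h2 r, hm₀]
        simp
      · intro h
        have h0 := fun r => (h _ hmem).1 r
        have hj : ∀ (j : J), ((v₀, Pi.single j 1) : (J → ZMod ℓ) × (J → ZMod ℓ)) ∈ 𝒰 := fun j =>
          (h𝒰 _).2 rfl
        have hsingle : ∀ (j : J) (c : J → ZMod ℓ),
            ∑ i, (Pi.single j (1 : ZMod ℓ) : J → ZMod ℓ) i * c i = c j := by
          intro j c
          rw [sum_eq_single j]
          · simp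
          · intro i _ hi
            simp [Pi.single_eq_of_ne hi]
          · simp
        simp only [hth, Pi.zero_apply, zero_mul, sum_const_zero, zero_add] at h0
        refine ⟨?_, fun r => ?_⟩
        · funext s j
          cases s with
          | none =>
            have h1 := (h _ (hj j)).2
            rw [hth, hth] at h1
            simp only [hsingle, Pi.zero_apply, zero_mul, sum_const_zero, zero_add] at h1
            have h2 : b none j - b₀ none j = 0 := by linear_combination h1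
            exact sub_eq_zero.1 h2
          | some r =>
            have h1 := (h _ (hj j)).1 r
            rw [hth] at h1
            simp only [hsingle] at h1
            have h2 : b (some r) j - b₀ (some r) j = 0 := by linear_combination h1 - h0 r
            exact sub_eq_zero.1 h2
        · simp only [hm₀]
          linear_combination h0 r
  -- reduce the sum
  have e1 : ∑ b : Option σ → J → ZMod ℓ, ∑ η : Option σ → J → ZMod ℓ, ∑ μ : Option σ → ZMod ℓ,
      hatH H b η μ * Pool.Agent.Helper54.PT.mt (thet τ b η μ) 𝒰 n =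
      ∑ p : (Option σ → J → ZMod ℓ) × ZMod ℓ, hatH H b₀ p.1 (ext p.2 (m₀ p.1)) *
        ee ((∑ j, p.1 none j * v₀ j + p.2) * (n : ZMod ℓ)) := by
    rw [sum_eq_single b₀, Fintype.sum_prod_type]
    · refine sum_congr rfl fun η _ => ?_
      rw [sumOpt]
      refine sum_congr rfl fun t _ => ?_
      rw [sum_eq_single (m₀ η)]
      · rw [hmt, if_pos ⟨rfl, fun r => rfl⟩]
        rfl
      · intro m _ hm
        rw [hmt, if_neg, mul_zero]
        rintro ⟨_, h⟩
        exact hm (funext h)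
      · simp
    · intro b _ hb
      refine sum_eq_zero fun η _ => sum_eq_zero fun μ _ => ?_
      rw [hmt, if_neg fun h => hb h.1, mul_zero]
    · simp
  -- exchange
  have e2 : ∑ p : (Option σ → J → ZMod ℓ) × ZMod ℓ, hatH H b₀ p.1 (ext p.2 (m₀ p.1)) *
        ee ((∑ j, p.1 none j * v₀ j + p.2) * (n : ZMod ℓ)) =
      (∑ x : (Option σ → J → ZMod ℓ) × (Option σ → ZMod ℓ), if H b₀ x.1 x.2 then
        ∑ p : (Option σ → J → ZMod ℓ) × ZMod ℓ, ee (Lx p.1 x.1 (ext p.2 (m₀ p.1)) x.2) *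
          ee ((∑ j, p.1 none j * v₀ j + p.2) * (n : ZMod ℓ)) else 0) / NN ℓ σ J := by
    simp only [hatH_eq, sum_div, sum_mul]
    rw [sum_comm]
    refine sum_congr rfl fun x _ => ?_
    split_ifs with hx
    · rw [sum_div]
      refine sum_congr rfl fun p _ => by ring
    · simp
  -- evaluation of the inner sum
  have e3 : ∀ x : (Option σ → J → ZMod ℓ) × (Option σ → ZMod ℓ),
      ∑ p : (Option σ → J → ZMod ℓ) × ZMod ℓ, ee (Lx p.1 x.1 (ext p.2 (m₀ p.1)) x.2) *
          ee ((∑ j, p.1 none j * v₀ j + p.2) * (n : ZMod ℓ)) =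
      (if (fun (s : Option σ) (j : J) => (s.elim (n : ZMod ℓ) fun r => x.2 (some r)) * v₀ j - x.1 s j) = 0
        then (ℓ : ℂ) ^ (Fintype.card J * Fintype.card (Option σ)) else 0) *
        (if (n : ZMod ℓ) - x.2 none = 0 then (ℓ : ℂ) else 0) := by
    intro x
    rw [← sum_ee_dot2, ← sum_ee_mul, sum_mul_sum, Fintype.sum_prod_type]
    refine sum_congr rfl fun η _ => sum_congr rfl fun t _ => ?_
    rw [← ee_add, ← ee_add]
    congr 1
    simp only [Lx, hm₀]
    rw [Fintype.sum_option, Fintype.sum_option, Fintype.sum_option]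
    simp only [ext, Option.elim, neg_mul, sum_neg_distrib, mul_sub, sum_sub_distrib, sum_mul]
    have f1 : ∀ r, ∑ j, η (some r) j * (x.2 (some r) * v₀ j) =
        ∑ j, η (some r) j * v₀ j * x.2 (some r) := fun r =>
      sum_congr rfl fun j _ => by ring
    have f2 : ∑ j, η none j * ((n : ZMod ℓ) * v₀ j) = (∑ j, η none j * v₀ j) * (n : ZMod ℓ) := by
      rw [sum_mul]
      exact sum_congr rfl fun j _ => by ring
    simp only [f1, f2]
    ring
  rw [e1, e2, norm_div]
  refine final_div ?_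
  calc ‖∑ x : (Option σ → J → ZMod ℓ) × (Option σ → ZMod ℓ), if H b₀ x.1 x.2 then
        ∑ p : (Option σ → J → ZMod ℓ) × ZMod ℓ, ee (Lx p.1 x.1 (ext p.2 (m₀ p.1)) x.2) *
          ee ((∑ j, p.1 none j * v₀ j + p.2) * (n : ZMod ℓ)) else 0‖
      ≤ ∑ x : (Option σ → J → ZMod ℓ) × (Option σ → ZMod ℓ),
        ‖if H b₀ x.1 x.2 then
        ∑ p : (Option σ → J → ZMod ℓ) × ZMod ℓ, ee (Lx p.1 x.1 (ext p.2 (m₀ p.1)) x.2) *
          ee ((∑ j, p.1 none j * v₀ j + p.2) * (n : ZMod ℓ)) else 0‖ := norm_sum_le _ _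
    _ ≤ ∑ x : (Option σ → J → ZMod ℓ) × (Option σ → ZMod ℓ),
        (if x.1 = (fun (s : Option σ) (j : J) => (s.elim (n : ZMod ℓ) fun r => x.2 (some r)) * v₀ j)
          then (ℓ : ℝ) ^ (Fintype.card J * Fintype.card (Option σ)) else 0) *
        (if x.2 none = (n : ZMod ℓ) then (ℓ : ℝ) else 0) := by
        refine sum_le_sum fun x _ => ?_
        have hnn : 0 ≤ (if x.1 = (fun (s : Option σ) (j : J) =>
            (s.elim (n : ZMod ℓ) fun r => x.2 (some r)) * v₀ j)
          then (ℓ : ℝ) ^ (Fintype.card J * Fintype.card (Option σ)) else 0) *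
          (if x.2 none = (n : ZMod ℓ) then (ℓ : ℝ) else 0) := by
          split_ifs <;> positivity
        by_cases hx : H b₀ x.1 x.2
        · rw [if_pos hx, e3, norm_mul]
          refine mul_le_mul ?_ ?_ (norm_nonneg _) ?_
          · by_cases h : (fun (s : Option σ) (j : J) =>
                (s.elim (n : ZMod ℓ) fun r => x.2 (some r)) * v₀ j - x.1 s j) = 0
            · rw [if_pos h, if_pos]
              · rw [norm_pow, Complex.norm_natCast]
              · funext s j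
                have := congrFun (congrFun h s) j
                simp only [Pi.zero_apply] at this
                exact (sub_eq_zero.1 this).symm
            · rw [if_neg h, norm_zero]
              split_ifs <;> positivity
          · by_cases h : (n : ZMod ℓ) - x.2 none = 0
            · rw [if_pos h, if_pos (sub_eq_zero.1 h).symm, Complex.norm_natCast]
            · rw [if_neg h, norm_zero]
              split_ifs <;> positivity
          · split_ifs <;> positivity
        · rw [if_neg hx, norm_zero]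
          exact hnn
    _ = (ℓ : ℝ) ^ (Fintype.card J * Fintype.card (Option σ)) *
          ((ℓ : ℝ) ^ Fintype.card σ * ℓ) := by
        rw [Fintype.sum_prod_type, sum_comm, ← sum_none (ℓ := ℓ) (σ := σ) (ℓ : ℝ) n, mul_sum]
        refine sum_congr rfl fun κ _ => ?_
        by_cases hκ : κ none = (n : ZMod ℓ)
        · simp only [hκ, if_true]
          rw [← sum_mul, sum_ite_eq' univ _ (fun _ => (ℓ : ℝ) ^ _), if_pos (mem_univ _)]
        · simp only [hκ, if_false, mul_zero, sum_const_zero]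
    _ ≤ (ℓ : ℝ) ^ ((Fintype.card J + 1) * (Fintype.card σ + 1)) := by
        rw [Fintype.card_option, ← pow_succ, ← pow_add]
        apply le_of_eq
        congr 1
        ring

theorem case_two (τ : (J → ZMod ℓ) →+ (J → Option σ → ZMod ℓ))
    (H : (Option σ → J → ZMod ℓ) → (Option σ → J → ZMod ℓ) → (Option σ → ZMod ℓ) → Prop)
    (hH : ∀ κ : Option σ → ZMod ℓ, ∑ x : (Option σ → J → ZMod ℓ) × (Option σ → J → ZMod ℓ),
      (open Classical in if H x.1 x.2 κ then (1 : ℝ) else 0) ≤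
        (ℓ : ℝ) ^ (Fintype.card J * (Fintype.card σ + 1)))
    (w₀ : J → ZMod ℓ) (𝒰 : Finset ((J → ZMod ℓ) × (J → ZMod ℓ)))
    (h𝒰 : ∀ u, u ∈ 𝒰 ↔ u.2 = w₀) (n : ℕ) :
    ‖∑ b : Option σ → J → ZMod ℓ, ∑ η : Option σ → J → ZMod ℓ, ∑ μ : Option σ → ZMod ℓ,
      hatH H b η μ * Pool.Agent.Helper54.PT.mt (thet τ b η μ) 𝒰 n‖ ≤ 1 := by
  classical
  set η₀ : Option σ → J → ZMod ℓ := fun s j => ∑ i, w₀ i * τ (Pi.single j 1) i s with hη₀
  set m₁ : (Option σ → J → ZMod ℓ) → σ → ZMod ℓ := fun b r => -∑ j, w₀ j * b (some r) j with hm₁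
  have hmem : ((0, w₀) : (J → ZMod ℓ) × (J → ZMod ℓ)) ∈ 𝒰 := (h𝒰 _).2 rfl
  have hτ : ∀ (v : J → ZMod ℓ) (s : Option σ), ∑ i, w₀ i * τ v i s = ∑ j, η₀ s j * v j := by
    intro v s
    have h1 : τ v = ∑ j, v j • τ (Pi.single j 1) := by
      conv_lhs => rw [← Finset.univ_sum_single v]
      rw [map_sum]
      refine sum_congr rfl fun j _ => ?_
      have h2 : (Pi.single j (v j) : J → ZMod ℓ) = v j • Pi.single j 1 := by
        rw [← Pi.single_smul', smul_eq_mul, mul_one]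
      rw [h2]
      exact ZMod.map_smul τ (v j) (Pi.single j 1)
    have h3 : ∀ i, τ v i s = ∑ j, v j * τ (Pi.single j 1) i s := by
      intro i
      rw [h1]
      simp [Finset.sum_apply]
    simp only [h3, hη₀, mul_sum, sum_mul]
    rw [sum_comm]
    exact sum_congr rfl fun j _ => sum_congr rfl fun i _ => by ring
  have hth : ∀ (b η : Option σ → J → ZMod ℓ) (μ : Option σ → ZMod ℓ) (v : J → ZMod ℓ) (s : Option σ),
      thet τ b η μ (v, w₀) s = ∑ j, v j * (η s j - η₀ s j) + (∑ j, w₀ j * b s j + μ s) := by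
    intro b η μ v s
    have h1 : ∑ j, v j * (η s j - η₀ s j) = ∑ j, η s j * v j - ∑ i, w₀ i * τ v i s := by
      rw [hτ, ← sum_sub_distrib]
      exact sum_congr rfl fun j _ => by ring
    rw [h1]
    simp only [thet, sum_add_distrib, mul_sub, sum_sub_distrib]
    ring
  have hmt : ∀ (b η : Option σ → J → ZMod ℓ) (μ : Option σ → ZMod ℓ),
      Pool.Agent.Helper54.PT.mt (thet τ b η μ) 𝒰 n = if η = η₀ ∧ ∀ r, μ (some r) = m₁ b r then
        ee ((∑ j, w₀ j * b none j + μ none) * (n : ZMod ℓ)) else 0 := by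
    intro b η μ
    rw [mt_eq (thet τ b η μ) 𝒰 n (0, w₀) hmem (η = η₀ ∧ ∀ r, μ (some r) = m₁ b r)]
    · rw [hth]
      simp
    · constructor
      · rintro ⟨h1, h2⟩ u hu
        obtain ⟨v, w⟩ := u
        obtain rfl : w = w₀ := (h𝒰 _).1 hu
        rw [hth, hth, h1]
        refine ⟨fun r => ?_, by simp⟩
        rw [hth, h2 r, hm₁]
        simp
      · intro h
        have h0 := fun r => (h _ hmem).1 r
        have hj : ∀ (j : J), ((Pi.single j 1, w₀) : (J → ZMod ℓ) × (J → ZMod ℓ)) ∈ 𝒰 := fun j =>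
          (h𝒰 _).2 rfl
        have hsingle : ∀ (j : J) (c : J → ZMod ℓ),
            ∑ i, (Pi.single j (1 : ZMod ℓ) : J → ZMod ℓ) i * c i = c j := by
          intro j c
          rw [sum_eq_single j]
          · simp
          · intro i _ hi
            simp [Pi.single_eq_of_ne hi]
          · simp
        simp only [hth, Pi.zero_apply, zero_mul, sum_const_zero, zero_add] at h0
        refine ⟨?_, fun r => ?_⟩
        · funext s j
          cases s with
          | none =>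
            have h1 := (h _ (hj j)).2
            rw [hth, hth] at h1
            simp only [hsingle, Pi.zero_apply, zero_mul, sum_const_zero, zero_add] at h1
            have h2 : η none j - η₀ none j = 0 := by linear_combination h1
            exact sub_eq_zero.1 h2
          | some r =>
            have h1 := (h _ (hj j)).1 r
            rw [hth] at h1
            simp only [hsingle] at h1
            have h2 : η (some r) j - η₀ (some r) j = 0 := by linear_combination h1 - h0 r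
            exact sub_eq_zero.1 h2
        · simp only [hm₁]
          linear_combination h0 r
  -- reduce the sum
  have e1 : ∑ b : Option σ → J → ZMod ℓ, ∑ η : Option σ → J → ZMod ℓ, ∑ μ : Option σ → ZMod ℓ,
      hatH H b η μ * Pool.Agent.Helper54.PT.mt (thet τ b η μ) 𝒰 n =
      ∑ b : Option σ → J → ZMod ℓ, ∑ t : ZMod ℓ, hatH H b η₀ (ext t (m₁ b)) *
        ee ((∑ j, w₀ j * b none j + t) * (n : ZMod ℓ)) := by
    refine sum_congr rfl fun b _ => ?_
    rw [sum_eq_single η₀]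
    · rw [sumOpt]
      refine sum_congr rfl fun t _ => ?_
      rw [sum_eq_single (m₁ b)]
      · rw [hmt, if_pos ⟨rfl, fun r => rfl⟩]
        rfl
      · intro m _ hm
        rw [hmt, if_neg, mul_zero]
        rintro ⟨_, h⟩
        exact hm (funext h)
      · simp
    · intro η _ hη
      refine sum_eq_zero fun μ _ => ?_
      rw [hmt, if_neg fun h => hη h.1, mul_zero]
    · simp
  have e2 : ∀ b : Option σ → J → ZMod ℓ, ∑ t : ZMod ℓ, hatH H b η₀ (ext t (m₁ b)) *
        ee ((∑ j, w₀ j * b none j + t) * (n : ZMod ℓ)) =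
      (∑ x : (Option σ → J → ZMod ℓ) × (Option σ → ZMod ℓ), if H b x.1 x.2 then
        ∑ t : ZMod ℓ, ee (Lx η₀ x.1 (ext t (m₁ b)) x.2) *
          ee ((∑ j, w₀ j * b none j + t) * (n : ZMod ℓ)) else 0) / NN ℓ σ J := by
    intro b
    simp only [hatH_eq, sum_div, sum_mul]
    rw [sum_comm]
    refine sum_congr rfl fun x _ => ?_
    split_ifs with hx
    · rw [sum_div]
      refine sum_congr rfl fun p _ => by ring
    · simp
  have e3 : ∀ (b : Option σ → J → ZMod ℓ) (x : (Option σ → J → ZMod ℓ) × (Option σ → ZMod ℓ)),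
      ‖∑ t : ZMod ℓ, ee (Lx η₀ x.1 (ext t (m₁ b)) x.2) *
          ee ((∑ j, w₀ j * b none j + t) * (n : ZMod ℓ))‖ =
        if x.2 none = (n : ZMod ℓ) then (ℓ : ℝ) else 0 := by
    intro b x
    have f1 : ∀ t : ZMod ℓ, ee (Lx η₀ x.1 (ext t (m₁ b)) x.2) *
        ee ((∑ j, w₀ j * b none j + t) * (n : ZMod ℓ)) =
        ee (-(∑ s, ∑ j, η₀ s j * x.1 s j + ∑ r, m₁ b r * x.2 (some r)) +
          (∑ j, w₀ j * b none j) * (n : ZMod ℓ)) * ee (t * ((n : ZMod ℓ) - x.2 none)) := by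
      intro t
      rw [← ee_add, ← ee_add]
      congr 1
      simp only [Lx]
      rw [Fintype.sum_option (f := fun s => ext t (m₁ b) s * x.2 s)]
      simp only [ext, Option.elim]
      ring
    simp only [f1]
    rw [← mul_sum, norm_mul, norm_ee, one_mul, sum_ee_mul]
    by_cases h : (n : ZMod ℓ) - x.2 none = 0
    · rw [if_pos h, if_pos (sub_eq_zero.1 h).symm, Complex.norm_natCast]
    · rw [if_neg h, if_neg fun h2 => h (by rw [h2, sub_self]), norm_zero]
  rw [e1, sum_congr rfl fun b _ => e2 b, ← sum_div, norm_div]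
  refine final_div ?_
  calc ‖∑ b : Option σ → J → ZMod ℓ, ∑ x : (Option σ → J → ZMod ℓ) × (Option σ → ZMod ℓ),
        if H b x.1 x.2 then ∑ t : ZMod ℓ, ee (Lx η₀ x.1 (ext t (m₁ b)) x.2) *
          ee ((∑ j, w₀ j * b none j + t) * (n : ZMod ℓ)) else 0‖
      ≤ ∑ b : Option σ → J → ZMod ℓ, ∑ x : (Option σ → J → ZMod ℓ) × (Option σ → ZMod ℓ),
        ‖if H b x.1 x.2 then ∑ t : ZMod ℓ, ee (Lx η₀ x.1 (ext t (m₁ b)) x.2) *
          ee ((∑ j, w₀ j * b none j + t) * (n : ZMod ℓ)) else 0‖ :=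
        (norm_sum_le _ _).trans (sum_le_sum fun b _ => norm_sum_le _ _)
    _ = ∑ b : Option σ → J → ZMod ℓ, ∑ x : (Option σ → J → ZMod ℓ) × (Option σ → ZMod ℓ),
        (if H b x.1 x.2 then (1 : ℝ) else 0) * (if x.2 none = (n : ZMod ℓ) then (ℓ : ℝ) else 0) := by
        refine sum_congr rfl fun b _ => sum_congr rfl fun x _ => ?_
        by_cases hx : H b x.1 x.2
        · rw [if_pos hx, if_pos hx, e3, one_mul]
        · rw [if_neg hx, if_neg hx, norm_zero, zero_mul]
    _ = ∑ κ : Option σ → ZMod ℓ, (∑ x : (Option σ → J → ZMod ℓ) × (Option σ → J → ZMod ℓ),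
        (if H x.1 x.2 κ then (1 : ℝ) else 0)) * (if κ none = (n : ZMod ℓ) then (ℓ : ℝ) else 0) := by
        have g1 : ∀ b : Option σ → J → ZMod ℓ,
            ∑ x : (Option σ → J → ZMod ℓ) × (Option σ → ZMod ℓ),
            (if H b x.1 x.2 then (1 : ℝ) else 0) * (if x.2 none = (n : ZMod ℓ) then (ℓ : ℝ) else 0) =
            ∑ κ : Option σ → ZMod ℓ, ∑ y : Option σ → J → ZMod ℓ,
            (if H b y κ then (1 : ℝ) else 0) * (if κ none = (n : ZMod ℓ) then (ℓ : ℝ) else 0) := by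
          intro b
          rw [Fintype.sum_prod_type, sum_comm]
        rw [sum_congr rfl fun b _ => g1 b, sum_comm]
        refine sum_congr rfl fun κ _ => ?_
        rw [Fintype.sum_prod_type, sum_mul]
        refine sum_congr rfl fun b _ => ?_
        rw [sum_mul]
    _ ≤ ∑ κ : Option σ → ZMod ℓ, (ℓ : ℝ) ^ (Fintype.card J * (Fintype.card σ + 1)) *
          (if κ none = (n : ZMod ℓ) then (ℓ : ℝ) else 0) := by
        refine sum_le_sum fun κ _ => mul_le_mul_of_nonneg_right ?_ (by split_ifs <;> positivity)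
        refine le_trans (le_of_eq ?_) (hH κ)
        exact sum_congr rfl fun x _ => by congr
    _ = (ℓ : ℝ) ^ (Fintype.card J * (Fintype.card σ + 1)) * ((ℓ : ℝ) ^ Fintype.card σ * ℓ) := by
        rw [← mul_sum, sum_none]
    _ ≤ (ℓ : ℝ) ^ ((Fintype.card J + 1) * (Fintype.card σ + 1)) := by
        rw [← pow_succ, ← pow_add]
        apply le_of_eq
        congr 1
        ring

theorem case_three (τ : (J → ZMod ℓ) →+ (J → Option σ → ZMod ℓ)) (hτ : Generic τ)
    (𝒰 : Finset ((J → ZMod ℓ) × (J → ZMod ℓ))) (h1 : Unl PhiJ 𝒰)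
    (h2 : 𝒰.card = ℓ ^ Fintype.card J) (h3 : ¬ IsStd 𝒰)
    (b η : Option σ → J → ZMod ℓ) (μ : Option σ → ZMod ℓ) (n : ℕ) :
    Pool.Agent.Helper54.PT.mt (thet τ b η μ) 𝒰 n = 0 := by
  obtain ⟨r, hr⟩ := hτ 𝒰 h1 h2 h3
  unfold Pool.Agent.Helper54.PT.mt
  rw [dif_neg]
  rintro ⟨γ, hγ⟩
  refine hr ⟨η (some r), b (some r), μ (some r), fun u hu => ?_⟩
  have h4 := (hγ u hu).1 r
  simp only [thet, sum_add_distrib, mul_sub, sum_sub_distrib] at h4 ⊢
  have h5 : ∑ j, u.2 j * b (some r) j = ∑ j, b (some r) j * u.2 j :=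
    sum_congr rfl fun j _ => mul_comm _ _
  rw [h5] at h4
  linear_combination -h4

end Pool.Agent.Helper7.TWB14

namespace Pool.Agent.Helper54.PT

open Finset Filter Topology Pool.Agent.Helper7.TWB14

section

variable {ℓ : ℕ} [Fact ℓ.Prime] {σ : Type} [Fintype σ] [DecidableEq σ] (X : PData ℓ σ) {q : ℕ}

section

variable {J : Type} [Fintype J] [DecidableEq J] (τ : (J → ZMod ℓ) →+ (J → Option σ → ZMod ℓ))
  (H : (Option σ → J → ZMod ℓ) → (Option σ → J → ZMod ℓ) → (Option σ → ZMod ℓ) → Prop)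

open Classical in
/-- B14: the finite main term -/
theorem main_term (hτ : Generic τ)
    (hH : ∀ κ : Option σ → ZMod ℓ, (univ.filter fun x : (Option σ → J → ZMod ℓ) ×
      (Option σ → J → ZMod ℓ) => H x.1 x.2 κ).card ≤
        ℓ ^ (Fintype.card J * (Fintype.card σ + 1))) (n : ℕ) :
    ‖∑ 𝒰 ∈ maxU (PhiJ (ℓ := ℓ) (J := J)) (ℓ ^ Fintype.card J),
      ∑ b : Option σ → J → ZMod ℓ, ∑ η : Option σ → J → ZMod ℓ, ∑ μ : Option σ → ZMod ℓ,
        hatH H b η μ * mt (thet τ b η μ) 𝒰 n‖ ≤ 2 * (ℓ : ℝ) ^ Fintype.card J := by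
  have hH' : ∀ κ : Option σ → ZMod ℓ, ∑ x : (Option σ → J → ZMod ℓ) × (Option σ → J → ZMod ℓ),
      (if H x.1 x.2 κ then (1 : ℝ) else 0) ≤
        (ℓ : ℝ) ^ (Fintype.card J * (Fintype.card σ + 1)) := by
    intro κ
    rw [← sum_filter, sum_const, nsmul_eq_mul, mul_one]
    exact_mod_cast hH κ
  have hstd : ∀ 𝒰 ∈ maxU (PhiJ (ℓ := ℓ) (J := J)) (ℓ ^ Fintype.card J),
      ‖∑ b : Option σ → J → ZMod ℓ, ∑ η : Option σ → J → ZMod ℓ, ∑ μ : Option σ → ZMod ℓ,
        hatH H b η μ * Pool.Agent.Helper54.PT.mt (thet τ b η μ) 𝒰 n‖ ≤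
        if IsStd 𝒰 then (1 : ℝ) else 0 := by
    intro 𝒰 h𝒰
    have h1 : Unl PhiJ 𝒰 ∧ 𝒰.card = ℓ ^ Fintype.card J := by simpa [maxU] using h𝒰
    split_ifs with h
    · rcases h with ⟨v₀, hv⟩ | ⟨w₀, hw⟩
      · exact case_one τ H v₀ 𝒰 hv n
      · exact case_two τ H hH' w₀ 𝒰 hw n
    · simp only [case_three τ hτ 𝒰 h1.1 h1.2 h, mul_zero, sum_const_zero, norm_zero, le_refl]
  refine (norm_sum_le _ _).trans ((sum_le_sum hstd).trans ?_)
  rw [← sum_filter, sum_const, nsmul_eq_mul, mul_one]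
  have hsub : (maxU (PhiJ (ℓ := ℓ) (J := J)) (ℓ ^ Fintype.card J)).filter (fun 𝒰 => IsStd 𝒰) ⊆
      (univ.image fun v₀ : J → ZMod ℓ =>
        (univ.filter fun u : (J → ZMod ℓ) × (J → ZMod ℓ) => u.1 = v₀)) ∪
      (univ.image fun w₀ : J → ZMod ℓ =>
        (univ.filter fun u : (J → ZMod ℓ) × (J → ZMod ℓ) => u.2 = w₀)) := by
    intro 𝒰 h𝒰
    rw [mem_union, mem_image, mem_image]
    rcases (mem_filter.1 h𝒰).2 with ⟨v₀, hv⟩ | ⟨w₀, hw⟩
    · left
      refine ⟨v₀, mem_univ _, ?_⟩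
      ext u
      rw [mem_filter, hv]
      simp
    · right
      refine ⟨w₀, mem_univ _, ?_⟩
      ext u
      rw [mem_filter, hw]
      simp
  have hcard : ((maxU (PhiJ (ℓ := ℓ) (J := J)) (ℓ ^ Fintype.card J)).filter
      (fun 𝒰 => IsStd 𝒰)).card ≤ 2 * ℓ ^ Fintype.card J := by
    refine (card_le_card hsub).trans ((card_union_le _ _).trans ?_)
    have c1 := card_image_le (s := (univ : Finset (J → ZMod ℓ))) (f := fun v₀ : J → ZMod ℓ =>
        (univ.filter fun u : (J → ZMod ℓ) × (J → ZMod ℓ) => u.1 = v₀))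
    have c2 := card_image_le (s := (univ : Finset (J → ZMod ℓ))) (f := fun w₀ : J → ZMod ℓ =>
        (univ.filter fun u : (J → ZMod ℓ) × (J → ZMod ℓ) => u.2 = w₀))
    have c3 : (univ : Finset (J → ZMod ℓ)).card = ℓ ^ Fintype.card J := by
      rw [card_univ, Fintype.card_fun, ZMod.card]
    omega
  exact_mod_cast hcard

end

end

end Pool.Agent.Helper54.PT
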