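import Pool.Agent.Helper54.PT.Defs

/-! MP_1d384c_nt, module B5 (SS_small). -/

set_option autoImplicit false

namespace Pool.Agent.Helper7.TW

open Finset Filter Topology Pool.Agent.Helper54.PT

section aux

set_option linter.unusedSectionVars false

variable {ℓ : ℕ} [Fact ℓ.Prime]

theorem norm_ee (x : ZMod ℓ) : ‖ee x‖ = 1 := AddChar.norm_apply _ _

theorem ee_add (x y : ZMod ℓ) : ee (x + y) = ee x * ee y := AddChar.map_add_eq_mul _ _ _

theorem ee_sum {α : Type} (s : Finset α) (f : α → ZMod ℓ) :
    ee (∑ i ∈ s, f i) = ∏ i ∈ s, ee (f i) := by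
  classical
  induction s using Finset.induction_on with
  | empty => simp [ee]
  | insert a s ha ih => rw [sum_insert ha, prod_insert ha, ee_add, ih]

variable {σ : Type} [Fintype σ] (X : PData ℓ σ)
variable {U : Type} [Fintype U] [DecidableEq U] (Φ : U → U → ZMod ℓ) (M : ℕ)
  (θ : U → Option σ → ZMod ℓ)

theorem symS_empty_left (A : Finset X.P) : X.symS ∅ A = 0 := by simp [PData.symS]

theorem symS_empty_right (A : Finset X.P) : X.symS A ∅ = 0 := by simp [PData.symS]

theorem phase_update (hΦ : ∀ u, Φ u u = 0) (R : U → Finset X.P) (u : U) (hR : R u = ∅)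
    (A : Finset X.P) :
    ∑ v, ∑ v', Φ v v' * X.symS (Function.update R u A v) (Function.update R u A v') =
      (∑ v, ∑ v', Φ v v' * X.symS (R v) (R v')) +
        ∑ v, (Φ u v * X.symS A (R v) + Φ v u * X.symS (R v) A) := by
  have h1 : ∀ v v', Φ v v' * X.symS (Function.update R u A v) (Function.update R u A v') =
      Φ v v' * X.symS (R v) (R v') + (if v = u then Φ u v' * X.symS A (R v') else 0)
        + (if v' = u then Φ v u * X.symS (R v) A else 0) := by
    intro v v'
    by_cases h : v = u
    · subst h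
      by_cases h' : v' = v
      · subst h'
        simp [hΦ, hR, symS_empty_left, symS_empty_right]
      · simp [h', hR, symS_empty_left]
    · by_cases h' : v' = u
      · subst h'
        simp [h, hR, symS_empty_right]
      · simp [h, h']
  simp only [h1, sum_add_distrib, Finset.sum_ite_eq', Finset.mem_univ, if_true]
  have h2 : ∑ v, ∑ v', (if v = u then Φ u v' * X.symS A (R v') else 0) =
      ∑ v', Φ u v' * X.symS A (R v') := by
    rw [Finset.sum_eq_single u]
    · simp
    · intro v _ hv
      simp [hv]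
    · simp
  rw [h2, add_assoc]

theorem symS_comm_of_disjoint {A B : Finset X.P} (h : Disjoint A B) :
    X.symS A B = ∑ p ∈ A, ∑ p' ∈ B, X.sym p' p := by
  refine sum_congr rfl fun p hp => sum_congr rfl fun p' hp' => X.sym_comm p p' ?_
  rintro rfl
  exact (Finset.disjoint_left.1 h hp) hp'

theorem symS_swap (A B : Finset X.P) : X.symS B A = ∑ p ∈ A, ∑ p' ∈ B, X.sym p' p := by
  rw [PData.symS, sum_comm]

end aux

end Pool.Agent.Helper7.TW

namespace Pool.Agent.Helper54.PT

open Finset Filter Topology Pool.Agent.Helper7.TW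

section

variable {ℓ : ℕ} [Fact ℓ.Prime] {σ : Type} [Fintype σ] [DecidableEq σ] (X : PData ℓ σ) {q : ℕ}

section

variable {U : Type} [Fintype U] [DecidableEq U] (Φ : U → U → ZMod ℓ) (M : ℕ)
  (θ : U → Option σ → ZMod ℓ)

/-- B5: a maximal unlinked set of large degrees and a small nonempty linked one -/
theorem SS_small (hX : X.Inputs q) (hM : 1 ≤ M) (hΦ : ∀ u, Φ u u = 0)
    (hmax : ∀ 𝒰 : Finset U, Unl Φ 𝒰 → 𝒰.card ≤ M) (A K B : ℕ) :
    ∃ n₀ : ℕ, ∀ n, n₀ ≤ n → ∀ 𝒰 ∈ maxU Φ M, ∀ m : U → ℕ, ∑ u, m u = n →
      (∀ u ∈ 𝒰, n ≤ m u ^ K) → (∀ u ∉ 𝒰, m u ≤ A * Nat.log 2 n) → (∃ u, u ∉ 𝒰 ∧ m u ≠ 0) →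
        ‖X.SS Φ M θ m‖ * (n : ℝ) ^ B ≤ (q : ℝ) ^ n := by
  classical
  obtain ⟨n₀, hn₀⟩ := hX.sw (Fintype.card U * A) K B
  refine ⟨n₀, fun n hn 𝒰 h𝒰 m hm hlarge hsmall hex => ?_⟩
  obtain ⟨u', hu', hmu'⟩ := hex
  have hUnl : Unl Φ 𝒰 ∧ 𝒰.card = M := by
    simpa [maxU] using h𝒰
  -- a linked index
  obtain ⟨u, hu, huu'⟩ : ∃ u ∈ 𝒰, Φ u u' + Φ u' u ≠ 0 := by
    by_contra hcon
    push Not at hcon
    have h1 : Unl Φ (insert u' 𝒰) := by
      intro a ha b hb
      rcases mem_insert.1 ha with h1 | h1
      · rcases mem_insert.1 hb with h2 | h2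
        · rw [h1, h2, hΦ]; simp
        · rw [h1, add_comm]; exact hcon b h2
      · rcases mem_insert.1 hb with h2 | h2
        · rw [h2]; exact hcon a h1
        · exact hUnl.1 a h1 b h2
    have h2 := hmax _ h1
    rw [card_insert_of_notMem hu', hUnl.2] at h2
    omega
  have hMR : (0 : ℝ) < M := by exact_mod_cast hM
  have hM1 : (1 : ℝ) ≤ M := by exact_mod_cast hM
  -- the fibres
  set T := (X.tup m).image (fun D => Function.update D u ∅) with hT
  have hq0 : (0 : ℝ) ≤ q := Nat.cast_nonneg q
  have hnB : (0 : ℝ) ≤ (n : ℝ) ^ B := by positivity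
  have hfib : ∀ R ∈ T, ‖∑ D ∈ (X.tup m).filter (fun D => Function.update D u ∅ = R),
      X.wt Φ M θ D‖ * (n : ℝ) ^ B ≤ (q : ℝ) ^ m u := by
    intro R hR
    obtain ⟨D₀, hD₀, hRD⟩ := mem_image.1 hR
    obtain ⟨hdeg, hdis⟩ := X.mem_tup.1 hD₀
    have hRu : R u = ∅ := by rw [← hRD]; simp
    have hRv : ∀ v, v ≠ u → R v = D₀ v := fun v hv => by rw [← hRD]; simp [hv]
    have hRdis : ∀ v v', v ≠ v' → Disjoint (R v) (R v') := by
      intro v v' hvv'
      by_cases h : v = u
      · rw [h, hRu]; exact disjoint_empty_left _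
      · by_cases h' : v' = u
        · rw [h', hRu]; exact disjoint_empty_right _
        · rw [hRv v h, hRv v' h']; exact hdis v v' hvv'
    set E : Finset X.P := univ.biUnion R with hE
    set G : Finset X.P := (univ.filter fun v => v ∉ 𝒰).biUnion R with hG
    set g : X.P → ZMod ℓ := fun p' => ∑ v, if p' ∈ R v then Φ u v + Φ v u else 0 with hg
    have hgv : ∀ v, ∀ p' ∈ R v, g p' = Φ u v + Φ v u := by
      intro v p' hp'
      simp only [hg]
      rw [sum_eq_single v]
      · rw [if_pos hp']
      · intro v' _ hv'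
        rw [if_neg]
        exact fun h => (Finset.disjoint_left.1 (hRdis v' v hv') h) hp'
      · simp
    -- the fibre is the set of subsets disjoint from E
    have hsum : ∑ D ∈ (X.tup m).filter (fun D => Function.update D u ∅ = R), X.wt Φ M θ D =
        ∑ A ∈ (X.sq (m u)).filter (fun A => Disjoint A E),
          X.wt Φ M θ (Function.update R u A) := by
      refine sum_bij' (fun D _ => D u) (fun A _ => Function.update R u A) ?_ ?_ ?_ ?_ ?_
      · intro D hD
        obtain ⟨hD1, hD2⟩ := mem_filter.1 hD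
        obtain ⟨hd1, hd2⟩ := X.mem_tup.1 hD1
        rw [mem_filter]
        refine ⟨X.mem_sq.2 (hd1 u), ?_⟩
        rw [hE, disjoint_biUnion_right]
        intro v _
        by_cases h : v = u
        · rw [h, hRu]; exact disjoint_empty_right _
        · have : R v = D v := by rw [← hD2]; simp [h]
          rw [this]
          exact hd2 u v (Ne.symm h)
      · intro A hA
        obtain ⟨hA1, hA2⟩ := mem_filter.1 hA
        rw [hE, disjoint_biUnion_right] at hA2
        rw [mem_filter]
        refine ⟨X.mem_tup.2 ⟨fun v => ?_, fun v v' hvv' => ?_⟩, ?_⟩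
        · by_cases h : v = u
          · subst h
            simpa using X.mem_sq.1 hA1
          · simp only [Function.update_of_ne h]
            rw [hRv v h]; exact hdeg v
        · by_cases h : v = u
          · subst h
            rw [Function.update_self, Function.update_of_ne (Ne.symm hvv')]
            exact hA2 v' (mem_univ _)
          · by_cases h' : v' = u
            · subst h'
              rw [Function.update_self, Function.update_of_ne h]
              exact (hA2 v (mem_univ _)).symm
            · rw [Function.update_of_ne h, Function.update_of_ne h']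
              exact hRdis v v' hvv'
        · funext v
          by_cases h : v = u
          · subst h; simp [hRu]
          · simp [h]
      · intro D hD
        obtain ⟨hD1, hD2⟩ := mem_filter.1 hD
        funext v
        by_cases h : v = u
        · subst h; simp
        · simp only [Function.update_of_ne h]
          rw [← hD2]; simp [h]
      · intro A hA
        simp
      · intro D hD
        obtain ⟨hD1, hD2⟩ := mem_filter.1 hD
        congr 1
        funext v
        by_cases h : v = u
        · subst h; simp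
        · simp only [Function.update_of_ne h]
          rw [← hD2]; simp [h]
    -- the weight
    set C : ℂ := (∏ v, ∏ p ∈ R v, (ee (dot (θ v) (X.xx p)) / (M : ℂ))) *
      ee (∑ v, ∑ v', Φ v v' * X.symS (R v) (R v')) with hC
    have hCn : ‖C‖ ≤ 1 := by
      rw [hC, norm_mul, norm_ee, mul_one, norm_prod]
      refine prod_le_one (fun _ _ => norm_nonneg _) fun v _ => ?_
      rw [norm_prod]
      refine prod_le_one (fun _ _ => norm_nonneg _) fun p _ => ?_
      rw [norm_div, norm_ee, Complex.norm_natCast, div_le_one hMR]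
      exact hM1
    have hwt : ∀ A ∈ (X.sq (m u)).filter (fun A => Disjoint A E),
        X.wt Φ M θ (Function.update R u A) = C * ∏ p ∈ A,
          (((1 / M : ℝ) : ℂ) * ee (∑ p' ∈ G, g p' * X.sym p' p + dot (θ u) (X.xx p))) := by
      intro A hA
      obtain ⟨hA1, hA2⟩ := mem_filter.1 hA
      rw [hE, disjoint_biUnion_right] at hA2
      have e1 : ∏ v, ∏ p ∈ Function.update R u A v, (ee (dot (θ v) (X.xx p)) / (M : ℂ)) =
          (∏ p ∈ A, (ee (dot (θ u) (X.xx p)) / (M : ℂ))) *
            ∏ v, ∏ p ∈ R v, (ee (dot (θ v) (X.xx p)) / (M : ℂ)) := by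
        rw [← mul_prod_erase univ _ (mem_univ u), Function.update_self]
        congr 1
        rw [← mul_prod_erase univ (fun v => ∏ p ∈ R v, (ee (dot (θ v) (X.xx p)) / (M : ℂ)))
          (mem_univ u), hRu, prod_empty, one_mul]
        refine prod_congr rfl fun v hv => ?_
        rw [Function.update_of_ne (mem_erase.1 hv).1]
      have e2 : ∑ v, (Φ u v * X.symS A (R v) + Φ v u * X.symS (R v) A) =
          ∑ p ∈ A, ∑ p' ∈ G, g p' * X.sym p' p := by
        have e3 : ∀ v, Φ u v * X.symS A (R v) + Φ v u * X.symS (R v) A =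
            ∑ p ∈ A, ∑ p' ∈ R v, (Φ u v + Φ v u) * X.sym p' p := by
          intro v
          rw [symS_comm_of_disjoint X (hA2 v (mem_univ _)), symS_swap X A (R v), ← add_mul,
            mul_sum]
          exact sum_congr rfl fun p _ => by rw [mul_sum]
        simp only [e3]
        rw [sum_comm]
        refine sum_congr rfl fun p _ => ?_
        rw [hG, sum_biUnion]
        · rw [sum_filter]
          refine sum_congr rfl fun v _ => ?_
          by_cases h : v ∈ 𝒰
          · rw [if_neg (by simpa using h)]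
            by_cases hvu : v = u
            · rw [hvu, hRu, sum_empty]
            · have : Φ u v + Φ v u = 0 := hUnl.1 u hu v h
              simp [this]
          · rw [if_pos h]
            exact sum_congr rfl fun p' hp' => by rw [hgv v p' hp']
        · intro v _ v' _ hvv'
          exact hRdis v v' hvv'
      rw [PData.wt, e1, phase_update X Φ hΦ R u hRu A, e2, ee_add, ee_sum A, hC]
      have e4 : ∏ p ∈ A, (((1 / M : ℝ) : ℂ) *
          ee (∑ p' ∈ G, g p' * X.sym p' p + dot (θ u) (X.xx p))) =
          (∏ p ∈ A, (ee (dot (θ u) (X.xx p)) / (M : ℂ))) *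
            ∏ p ∈ A, ee (∑ p' ∈ G, g p' * X.sym p' p) := by
        rw [← prod_mul_distrib]
        refine prod_congr rfl fun p _ => ?_
        rw [ee_add]
        push_cast
        ring
      rw [e4]
      ring
    rw [hsum, sum_congr rfl hwt, ← mul_sum, norm_mul, mul_assoc]
    refine (mul_le_of_le_one_left (by positivity) hCn).trans ?_
    have hdgR : ∀ v, X.dg (R v) ≤ m v := by
      intro v
      by_cases h : v = u
      · rw [h, hRu]; simp [PData.dg]
      · rw [hRv v h, hdeg v]
    have hdgU : ∀ s : Finset U, X.dg (s.biUnion R) ≤ ∑ v ∈ s, m v := by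
      intro s
      rw [PData.dg, sum_biUnion fun v _ v' _ hvv' => hRdis v v' hvv']
      exact sum_le_sum fun v _ => hdgR v
    refine hn₀ n hn G E g (θ u) (m u) (1 / M) ?_ ?_ ?_ (hlarge u hu) ?_ (by positivity) ?_ ?_
    · exact biUnion_subset_biUnion_of_subset_left _ (filter_subset _ _)
    · refine (hdgU _).trans ?_
      calc ∑ v ∈ univ.filter (fun v => v ∉ 𝒰), m v
          ≤ ∑ v ∈ univ.filter (fun v => v ∉ 𝒰), A * Nat.log 2 n :=
            sum_le_sum fun v hv => hsmall v (mem_filter.1 hv).2
        _ = (univ.filter (fun v => v ∉ 𝒰)).card * (A * Nat.log 2 n) := by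
            rw [sum_const, smul_eq_mul]
        _ ≤ Fintype.card U * (A * Nat.log 2 n) :=
            Nat.mul_le_mul_right _ (card_le_univ _)
        _ = Fintype.card U * A * Nat.log 2 n := by ring
    · refine (hdgU _).trans (le_of_eq hm)
    · rw [← hm]
      exact single_le_sum (f := m) (fun _ _ => Nat.zero_le _) (mem_univ u)
    · rw [div_le_one hMR]; exact hM1
    · left
      have hne : (R u').Nonempty := by
        rw [nonempty_iff_ne_empty]
        intro h
        have hu'u : u' ≠ u := fun h => hu' (h ▸ hu)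
        rw [hRv u' hu'u] at h
        have := hdeg u'
        rw [h] at this
        exact hmu' (by simpa [PData.dg] using this.symm)
      obtain ⟨p, hp⟩ := hne
      refine ⟨p, mem_biUnion.2 ⟨u', mem_filter.2 ⟨mem_univ _, hu'⟩, hp⟩, ?_⟩
      rw [hgv u' p hp]
      exact huu'
  -- number of fibres
  have hcard : (T.card : ℝ) * (q : ℝ) ^ m u ≤ (q : ℝ) ^ n := by
    have h1 : T ⊆ Fintype.piFinset fun v => if v = u then {∅} else X.sq (m v) := by
      intro R hR
      obtain ⟨D₀, hD₀, hRD⟩ := mem_image.1 hR
      obtain ⟨hdeg, hdis⟩ := X.mem_tup.1 hD₀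
      rw [Fintype.mem_piFinset]
      intro v
      rw [← hRD]
      by_cases h : v = u
      · subst h; simp
      · simp only [h, if_false, Function.update_of_ne h]
        exact X.mem_sq.2 (hdeg v)
    have h2 : T.card ≤ ∏ v, (if v = u then 1 else q ^ m v) := by
      refine (card_le_card h1).trans ?_
      rw [Fintype.card_piFinset]
      refine prod_le_prod' fun v _ => ?_
      split_ifs
      · simp
      · exact hX.card_sq _
    have h3 : (∏ v, (if v = u then 1 else q ^ m v)) * q ^ m u = q ^ n := by
      rw [← hm, ← prod_pow_eq_pow_sum, ← mul_prod_erase univ _ (mem_univ u),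
        ← mul_prod_erase univ (fun v => q ^ m v) (mem_univ u), if_pos rfl, one_mul, mul_comm]
      congr 1
      refine prod_congr rfl fun v hv => ?_
      rw [if_neg (mem_erase.1 hv).1]
    have h4 : T.card * q ^ m u ≤ q ^ n := by
      rw [← h3]
      exact Nat.mul_le_mul_right _ h2
    exact_mod_cast h4
  have hmaps : ∀ D ∈ X.tup m, Function.update D u ∅ ∈ T := fun D hD =>
    mem_image_of_mem _ hD
  rw [PData.SS, ← sum_fiberwise_of_maps_to hmaps]
  calc ‖∑ R ∈ T, ∑ D ∈ (X.tup m).filter (fun D => Function.update D u ∅ = R), X.wt Φ M θ D‖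
        * (n : ℝ) ^ B
      ≤ (∑ R ∈ T, ‖∑ D ∈ (X.tup m).filter (fun D => Function.update D u ∅ = R),
          X.wt Φ M θ D‖) * (n : ℝ) ^ B := mul_le_mul_of_nonneg_right (norm_sum_le _ _) hnB
    _ = ∑ R ∈ T, ‖∑ D ∈ (X.tup m).filter (fun D => Function.update D u ∅ = R),
          X.wt Φ M θ D‖ * (n : ℝ) ^ B := by rw [sum_mul]
    _ ≤ ∑ R ∈ T, (q : ℝ) ^ m u := sum_le_sum hfib
    _ = (T.card : ℝ) * (q : ℝ) ^ m u := by rw [sum_const, nsmul_eq_mul]
    _ ≤ (q : ℝ) ^ n := hcard

end

end

end Pool.Agent.Helper54.PT
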